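import Pool.Agent.Y540.QE.Poin

/-! Poincaré's inequality on a subdivided square. -/

set_option autoImplicit false

open Set Filter Topology MeasureTheory
open scoped Real ContDiff ComplexConjugate

namespace Pool.Agent.Y540.QE

open Pool.Agent.Y262.QE

theorem null_re (t : ℝ) : volume {z : ℂ | z.re = t} = 0 := by
  have e : {z : ℂ | z.re = t} = Complex.measurableEquivRealProd ⁻¹' ({t} ×ˢ univ) := by
    ext z
    simp [Complex.measurableEquivRealProd_apply]
  rw [e, Complex.volume_preserving_equiv_real_prod.measure_preimage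
    ((measurableSet_singleton t).prod MeasurableSet.univ).nullMeasurableSet]
  rw [Measure.volume_eq_prod, Measure.prod_prod, Real.volume_singleton, zero_mul]

theorem null_im (t : ℝ) : volume {z : ℂ | z.im = t} = 0 := by
  have e : {z : ℂ | z.im = t} = Complex.measurableEquivRealProd ⁻¹' (univ ×ˢ {t}) := by
    ext z
    simp [Complex.measurableEquivRealProd_apply]
  rw [e, Complex.volume_preserving_equiv_real_prod.measure_preimage
    (MeasurableSet.univ.prod (measurableSet_singleton t)).nullMeasurableSet]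
  rw [Measure.volume_eq_prod, Measure.prod_prod, Real.volume_singleton, mul_zero]

theorem compact_sq (c : ℂ) (r : ℝ) : IsCompact (Sq c r) := by
  rw [sq_eq]
  exact Complex.equivRealProdCLM.toHomeomorph.isClosedEmbedding.isCompact_preimage
    (isCompact_Icc.prod isCompact_Icc)

/-- the centers of the small squares -/
noncomputable def ctr (c : ℂ) (r : ℝ) (m : ℕ) (q : Fin m × Fin m) : ℂ :=
  ⟨c.re - r + (2 * (q.1 : ℕ) + 1) * (r / m), c.im - r + (2 * (q.2 : ℕ) + 1) * (r / m)⟩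

theorem cover1 {r x : ℝ} {m : ℕ} (hr : 0 < r) (hm : 0 < m) (hx : |x| ≤ r) :
    ∃ i : Fin m, |x - (-r + (2 * (i : ℕ) + 1) * (r / m))| ≤ r / m := by
  have hm0 : (0 : ℝ) < m := by exact_mod_cast hm
  obtain ⟨h1, h2⟩ := abs_le.1 hx
  obtain ⟨t, ht⟩ : ∃ t : ℝ, t = (x + r) * m / (2 * r) := ⟨_, rfl⟩
  have ht0 : 0 ≤ t := by
    rw [ht]
    have : 0 ≤ x + r := by linarith
    positivity
  have htm : t ≤ m := by
    rw [ht, div_le_iff₀ (by positivity)]
    have : (x + r) * m ≤ (2 * r) * m := mul_le_mul_of_nonneg_right (by linarith) hm0.le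
    linarith
  have hxt : x = -r + 2 * t * (r / m) := by
    rw [ht]
    field_simp
    ring
  have hrm : 0 < r / m := by positivity
  have key : ∀ i : ℕ, i < m → (i : ℝ) ≤ t → t ≤ i + 1 →
      ∃ i : Fin m, |x - (-r + (2 * (i : ℕ) + 1) * (r / m))| ≤ r / m := by
    intro i hi h3 h4
    refine ⟨⟨i, hi⟩, ?_⟩
    have e : x - (-r + (2 * ((⟨i, hi⟩ : Fin m) : ℕ) + 1) * (r / m)) =
        (2 * (t - i) - 1) * (r / m) := by
      rw [hxt]
      ring
    rw [e, abs_mul, abs_of_pos hrm]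
    have h5 : |2 * (t - i) - 1| ≤ 1 := abs_le.2 ⟨by linarith, by linarith⟩
    calc |2 * (t - i) - 1| * (r / m) ≤ 1 * (r / m) := mul_le_mul_of_nonneg_right h5 hrm.le
      _ = r / m := one_mul _
  rcases htm.lt_or_eq with h | h
  · exact key ⌊t⌋₊ ((Nat.floor_lt ht0).2 h) (Nat.floor_le ht0) (Nat.lt_floor_add_one t).le
  · have h5 : ((m - 1 : ℕ) : ℝ) = m - 1 := by
      rw [Nat.cast_sub hm]
      simp
    exact key (m - 1) (by omega) (by rw [h5, h]; linarith) (by rw [h5, h]; linarith)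

theorem inside1 {r x : ℝ} {m : ℕ} (hr : 0 < r) (i : Fin m)
    (hx : |x - (-r + (2 * (i : ℕ) + 1) * (r / m))| ≤ r / m) : |x| ≤ r := by
  have hm : 0 < m := Fin.pos i
  have hm0 : (0 : ℝ) < m := by exact_mod_cast hm
  have hrm : 0 < r / m := by positivity
  obtain ⟨h1, h2⟩ := abs_le.1 hx
  have hi : ((i : ℕ) : ℝ) + 1 ≤ m := by exact_mod_cast i.2
  have hi0 : (0 : ℝ) ≤ ((i : ℕ) : ℝ) := Nat.cast_nonneg _
  have e : (m : ℝ) * (r / m) = r := by field_simp
  have h3 : 0 ≤ (2 * ((i : ℕ) : ℝ)) * (r / m) := by positivity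
  have h4 : (((i : ℕ) : ℝ) + 1) * (r / m) ≤ m * (r / m) := mul_le_mul_of_nonneg_right hi hrm.le
  refine abs_le.2 ⟨by linarith, by linarith⟩

theorem disj1 {r x : ℝ} {m : ℕ} (hr : 0 < r) (i j : Fin m) (hij : i ≠ j)
    (hx : |x - (-r + (2 * (i : ℕ) + 1) * (r / m))| ≤ r / m)
    (hy : |x - (-r + (2 * (j : ℕ) + 1) * (r / m))| ≤ r / m) :
    x = -r + 2 * (max (i : ℕ) (j : ℕ) : ℕ) * (r / m) := by
  have hm : 0 < m := Fin.pos i
  have hm0 : (0 : ℝ) < m := by exact_mod_cast hm
  have hrm : 0 < r / m := by positivity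
  obtain ⟨h1, h2⟩ := abs_le.1 hx
  obtain ⟨h3, h4⟩ := abs_le.1 hy
  have hne : (i : ℕ) ≠ (j : ℕ) := fun h => hij (Fin.ext h)
  rcases Nat.lt_or_ge (i : ℕ) (j : ℕ) with h | h
  · rw [max_eq_right h.le]
    have h5 : ((i : ℕ) : ℝ) + 1 ≤ (j : ℕ) := by exact_mod_cast h
    have h6 := mul_le_mul_of_nonneg_right h5 hrm.le
    refine le_antisymm ?_ ?_
    · linarith
    · linarith
  · have h' : (j : ℕ) < (i : ℕ) := lt_of_le_of_ne h hne.symm
    rw [max_eq_left h]
    have h5 : ((j : ℕ) : ℝ) + 1 ≤ (i : ℕ) := by exact_mod_cast h'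
    have h6 := mul_le_mul_of_nonneg_right h5 hrm.le
    refine le_antisymm ?_ ?_
    · linarith
    · linarith

theorem re_shift (c : ℂ) (r : ℝ) (m : ℕ) (q : Fin m × Fin m) (z : ℂ) :
    z.re - (ctr c r m q).re = (z.re - c.re) - (-r + (2 * (q.1 : ℕ) + 1) * (r / m)) := by
  change z.re - (c.re - r + (2 * (q.1 : ℕ) + 1) * (r / m)) = _
  ring

theorem im_shift (c : ℂ) (r : ℝ) (m : ℕ) (q : Fin m × Fin m) (z : ℂ) :
    z.im - (ctr c r m q).im = (z.im - c.im) - (-r + (2 * (q.2 : ℕ) + 1) * (r / m)) := by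
  change z.im - (c.im - r + (2 * (q.2 : ℕ) + 1) * (r / m)) = _
  ring

theorem sq_sub {c : ℂ} {r : ℝ} {m : ℕ} (hr : 0 < r) (q : Fin m × Fin m) :
    Sq (ctr c r m q) (r / m) ⊆ Sq c r := by
  rintro z ⟨h1, h2⟩
  rw [re_shift] at h1
  rw [im_shift] at h2
  exact ⟨inside1 hr _ h1, inside1 hr _ h2⟩

theorem sq_cover {c : ℂ} {r : ℝ} {m : ℕ} (hr : 0 < r) (hm : 0 < m) :
    ⋃ q : Fin m × Fin m, Sq (ctr c r m q) (r / m) = Sq c r := by
  refine Subset.antisymm (iUnion_subset fun q => sq_sub hr q) ?_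
  rintro z ⟨h1, h2⟩
  obtain ⟨i, hi⟩ := cover1 hr hm h1
  obtain ⟨j, hj⟩ := cover1 hr hm h2
  refine mem_iUnion.2 ⟨(i, j), ?_, ?_⟩
  · rw [re_shift]
    exact hi
  · rw [im_shift]
    exact hj

theorem sq_disj {c : ℂ} {r : ℝ} {m : ℕ} (hr : 0 < r) :
    Pairwise (Function.onFun (AEDisjoint volume)
      fun q : Fin m × Fin m => Sq (ctr c r m q) (r / m)) := by
  intro q q' hne
  change volume (Sq (ctr c r m q) (r / m) ∩ Sq (ctr c r m q') (r / m)) = 0
  by_cases h : q.1 = q'.1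
  · have h' : q.2 ≠ q'.2 := fun h2 => hne (Prod.ext h h2)
    refine measure_mono_null ?_ (null_im (c.im + (-r + 2 * (max (q.2 : ℕ) (q'.2 : ℕ) : ℕ) * (r / m))))
    rintro z ⟨⟨_, h2⟩, _, h4⟩
    rw [im_shift] at h2 h4
    have := disj1 hr _ _ h' h2 h4
    change z.im = _
    linarith
  · refine measure_mono_null ?_ (null_re (c.re + (-r + 2 * (max (q.1 : ℕ) (q'.1 : ℕ) : ℕ) * (r / m))))
    rintro z ⟨⟨h1, _⟩, h3, _⟩
    rw [re_shift] at h1 h3
    have := disj1 hr _ _ h h1 h3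
    change z.re = _
    linarith

theorem int_cover {c : ℂ} {r : ℝ} {m : ℕ} (hr : 0 < r) (hm : 0 < m) {F : ℂ → ℝ}
    (hF : ContinuousOn F (Sq c r)) :
    ∫ z in Sq c r, F z = ∑ q : Fin m × Fin m, ∫ z in Sq (ctr c r m q) (r / m), F z := by
  have h1 := integral_iUnion_ae (μ := volume) (f := F)
    (s := fun q : Fin m × Fin m => Sq (ctr c r m q) (r / m))
    (fun q => (compact_sq _ _).measurableSet.nullMeasurableSet) (sq_disj hr) (by
      rw [sq_cover hr hm]
      exact hF.integrableOn_compact (compact_sq _ _))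
  rw [sq_cover hr hm, tsum_fintype] at h1
  exact h1

theorem sub : StPoin → StSub := by
  intro hP c r m hr hm
  have hm0 : (0 : ℝ) < m := by exact_mod_cast hm
  have hrm : 0 < r / m := by positivity
  refine ⟨fun k => (Sq (ctr c r m (finProdFinEquiv.symm k)) (r / m)).indicator
    fun _ => (2 * (r / m))⁻¹, ?_, ?_, ?_, ?_⟩
  · intro k
    exact measurable_const.indicator (compact_sq _ _).measurableSet
  · intro k
    refine ⟨(2 * (r / m))⁻¹, fun z => ?_⟩
    change |(Sq (ctr c r m (finProdFinEquiv.symm k)) (r / m)).indicator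
      (fun _ => (2 * (r / m : ℝ))⁻¹) z| ≤ _
    by_cases h : z ∈ Sq (ctr c r m (finProdFinEquiv.symm k)) (r / m)
    · rw [indicator_of_mem h, abs_of_pos (by positivity)]
    · rw [indicator_of_notMem h, abs_zero]
      positivity
  · intro k z hz
    exact indicator_of_notMem (fun h => hz (sq_sub hr _ h)) _
  · intro O f hO hsub hf
    have hfc : ContinuousOn f (Sq c r) := hf.continuousOn.mono hsub
    have hdf : ContinuousOn (fderiv ℝ f) (Sq c r) :=
      (hf.continuousOn_fderiv_of_isOpen hO le_rfl).mono hsub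
    rw [int_cover hr hm (F := fun z => f z ^ 2) (hfc.pow 2),
      int_cover hr hm (F := fun z => ‖fderiv ℝ f z‖ ^ 2) (hdf.norm.pow 2), Finset.mul_sum]
    rw [← Equiv.sum_comp finProdFinEquiv (fun k : Fin (m * m) => (∫ z in Sq c r, f z *
      (Sq (ctr c r m (finProdFinEquiv.symm k)) (r / m)).indicator
        (fun _ => (2 * (r / m))⁻¹) z) ^ 2), ← Finset.sum_add_distrib]
    refine Finset.sum_le_sum fun q _ => ?_
    have h1 := hP (ctr c r m q) (r / m) O f hrm hO ((sq_sub hr q).trans hsub) hf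
    refine h1.trans (le_of_eq ?_)
    have e1 : 4 * (r / m) ^ 2 = 4 * r ^ 2 / (m : ℝ) ^ 2 := by
      rw [div_pow]
      ring
    have e2 : ∫ z in Sq c r, f z * (Sq (ctr c r m (finProdFinEquiv.symm (finProdFinEquiv q)))
        (r / m)).indicator (fun _ => (2 * (r / m))⁻¹) z =
        (2 * (r / m))⁻¹ * ∫ z in Sq (ctr c r m q) (r / m), f z := by
      rw [Equiv.symm_apply_apply]
      have e3 : ∀ z, f z * (Sq (ctr c r m q) (r / m)).indicator (fun _ => (2 * (r / m))⁻¹) z =
          (Sq (ctr c r m q) (r / m)).indicator (fun z => (2 * (r / m))⁻¹ * f z) z := by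
        intro z
        by_cases h : z ∈ Sq (ctr c r m q) (r / m)
        · rw [indicator_of_mem h, indicator_of_mem h, mul_comm]
        · rw [indicator_of_notMem h, indicator_of_notMem h, mul_zero]
      simp only [e3]
      rw [setIntegral_indicator (compact_sq _ _).measurableSet, inter_eq_right.2 (sq_sub hr q),
        integral_const_mul]
    rw [e2, e1, mul_pow]
    congr 2
    rw [← e1, inv_pow]
    congr 1
    ring

end Pool.Agent.Y540.QE
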