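import Pool.Agent.Y262.QE.Stm

/-! Poincaré's inequality on a square. -/

set_option autoImplicit false

open Set Filter Topology MeasureTheory
open scoped Real ContDiff ComplexConjugate

namespace Pool.Agent.Y540.QE

open Pool.Agent.Y262.QE

theorem cs {a b : ℝ} (hab : a < b) {h : ℝ → ℝ} (hh : Continuous h) :
    (∫ t in a..b, h t) ^ 2 ≤ (b - a) * ∫ t in a..b, h t ^ 2 := by
  obtain ⟨m, hm⟩ : ∃ m : ℝ, m = ∫ t in a..b, h t := ⟨_, rfl⟩
  have hba : 0 < b - a := sub_pos.2 hab
  have h1 : 0 ≤ ∫ t in a..b, (h t - m / (b - a)) ^ 2 :=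
    intervalIntegral.integral_nonneg hab.le fun t _ => sq_nonneg _
  have h2 : ∫ t in a..b, (h t - m / (b - a)) ^ 2 =
      (∫ t in a..b, h t ^ 2) - 2 * (m / (b - a)) * m + (b - a) * (m / (b - a)) ^ 2 := by
    have e : ∀ t, (h t - m / (b - a)) ^ 2 = h t ^ 2 - 2 * (m / (b - a)) * h t +
      (m / (b - a)) ^ 2 := fun t => by ring
    simp only [e]
    rw [intervalIntegral.integral_add, intervalIntegral.integral_sub,
      intervalIntegral.integral_const_mul, ← hm, intervalIntegral.integral_const, smul_eq_mul]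
    · exact (hh.pow 2).intervalIntegrable _ _
    · exact (continuous_const.mul hh).intervalIntegrable _ _
    · exact ((hh.pow 2).sub (continuous_const.mul hh)).intervalIntegrable _ _
    · exact continuous_const.intervalIntegrable _ _
  rw [h2] at h1
  rw [← hm]
  have h3 : (∫ t in a..b, h t ^ 2) - 2 * (m / (b - a)) * m + (b - a) * (m / (b - a)) ^ 2 =
      (∫ t in a..b, h t ^ 2) - m ^ 2 / (b - a) := by
    field_simp
    ring
  rw [h3, sub_nonneg, div_le_iff₀ hba] at h1
  linarith

theorem var {a b : ℝ} (hab : a < b) {G : ℝ → ℝ} (hG : Continuous G) {D : ℝ}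
    (hD : ∀ x ∈ Icc a b, ∀ y ∈ Icc a b, (G x - G y) ^ 2 ≤ D) :
    ∫ x in a..b, G x ^ 2 ≤ (b - a) * D + (b - a)⁻¹ * (∫ x in a..b, G x) ^ 2 := by
  obtain ⟨m, hm⟩ : ∃ m : ℝ, m = ∫ t in a..b, G t := ⟨_, rfl⟩
  obtain ⟨s, hs⟩ : ∃ s : ℝ, s = ∫ t in a..b, G t ^ 2 := ⟨_, rfl⟩
  have hba : 0 < b - a := sub_pos.2 hab
  have h1 : ∀ x ∈ Icc a b, (b - a) * G x ^ 2 - 2 * G x * m + s ≤ (b - a) * D := by
    intro x hx
    have h2 : ∫ y in a..b, (G x - G y) ^ 2 ≤ ∫ y in a..b, D :=
      intervalIntegral.integral_mono_on hab.le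
        (((continuous_const.sub hG).pow 2).intervalIntegrable _ _)
        (continuous_const.intervalIntegrable _ _) fun y hy => hD x hx y hy
    have h3 : ∫ y in a..b, (G x - G y) ^ 2 = (b - a) * G x ^ 2 - 2 * G x * m + s := by
      have e : ∀ y, (G x - G y) ^ 2 = G x ^ 2 - 2 * G x * G y + G y ^ 2 := fun y => by ring
      simp only [e]
      rw [intervalIntegral.integral_add, intervalIntegral.integral_sub,
        intervalIntegral.integral_const_mul, ← hm, ← hs, intervalIntegral.integral_const,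
        smul_eq_mul]
      · exact continuous_const.intervalIntegrable _ _
      · exact (continuous_const.mul hG).intervalIntegrable _ _
      · exact (continuous_const.sub (continuous_const.mul hG)).intervalIntegrable _ _
      · exact (hG.pow 2).intervalIntegrable _ _
    rw [h3, intervalIntegral.integral_const, smul_eq_mul] at h2
    exact h2
  have h4 : ∫ x in a..b, ((b - a) * G x ^ 2 - 2 * m * G x + s) ≤ ∫ x in a..b, (b - a) * D :=
    intervalIntegral.integral_mono_on hab.le
      ((((continuous_const.mul (hG.pow 2)).sub (continuous_const.mul hG)).add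
        continuous_const).intervalIntegrable _ _)
      (continuous_const.intervalIntegrable _ _) fun x hx => by
        have := h1 x hx
        have e : (b - a) * G x ^ 2 - 2 * m * G x + s = (b - a) * G x ^ 2 - 2 * G x * m + s := by
          ring
        rw [e]
        exact this
  rw [intervalIntegral.integral_const, smul_eq_mul, intervalIntegral.integral_add,
    intervalIntegral.integral_sub, intervalIntegral.integral_const_mul,
    intervalIntegral.integral_const_mul, ← hm, ← hs, intervalIntegral.integral_const,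
    smul_eq_mul] at h4
  · rw [← hm, ← hs]
    have h5 : (b - a) * D + (b - a)⁻¹ * m ^ 2 - s =
        ((b - a) * D * (b - a) + m ^ 2 - (b - a) * s) / (b - a) := by
      field_simp
    have h6 : 0 ≤ (b - a) * D * (b - a) + m ^ 2 - (b - a) * s := by
      have hD0 : 0 ≤ D := (sq_nonneg _).trans (hD a ⟨le_rfl, hab.le⟩ a ⟨le_rfl, hab.le⟩)
      have : 0 ≤ (b - a) * D * (b - a) := by positivity
      nlinarith
    have h7 := div_nonneg h6 hba.le
    rw [← h5] at h7
    linarith
  · exact (continuous_const.mul (hG.pow 2)).intervalIntegrable _ _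
  · exact (continuous_const.mul hG).intervalIntegrable _ _
  · exact ((continuous_const.mul (hG.pow 2)).sub (continuous_const.mul hG)).intervalIntegrable _ _
  · exact continuous_const.intervalIntegrable _ _

/-- exchange of the integrals of a continuous function -/
theorem swp {a b a' b' : ℝ} (hab : a ≤ b) (hab' : a' ≤ b') {h : ℝ → ℝ → ℝ}
    (hh : Continuous (Function.uncurry h)) :
    ∫ x in a..b, ∫ y in a'..b', h x y = ∫ y in a'..b', ∫ x in a..b, h x y := by
  simp only [intervalIntegral.integral_of_le hab, intervalIntegral.integral_of_le hab']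
  refine integral_integral_swap ?_
  rw [Measure.prod_restrict]
  have h1 : IntegrableOn (Function.uncurry h) (Icc a b ×ˢ Icc a' b') (volume.prod volume) :=
    hh.continuousOn.integrableOn_compact (isCompact_Icc.prod isCompact_Icc)
  exact h1.mono_set (Set.prod_mono Ioc_subset_Icc_self Ioc_subset_Icc_self)

theorem osc {a b : ℝ} (hab : a < b) {G p : ℝ → ℝ} (hp : Continuous p)
    (hG : ∀ x ∈ Icc a b, HasDerivAt G (p x) x) :
    ∀ x ∈ Icc a b, ∀ y ∈ Icc a b, |G x - G y| ≤ ∫ t in a..b, |p t| := by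
  intro x hx y hy
  have hsub : uIcc y x ⊆ Icc a b := by
    rw [← uIcc_of_le hab.le]
    exact uIcc_subset_uIcc (by rw [uIcc_of_le hab.le]; exact hy) (by rw [uIcc_of_le hab.le]; exact hx)
  have h1 : ∫ t in y..x, p t = G x - G y :=
    intervalIntegral.integral_eq_sub_of_hasDerivAt (fun t ht => hG t (hsub ht))
      (hp.intervalIntegrable _ _)
  rw [← h1]
  have h2 : abs (∫ t in y..x, p t) ≤ abs (∫ t in y..x, abs (p t)) := by
    have := intervalIntegral.norm_integral_le_abs_integral_norm (f := p) (a := y) (b := x)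
      (μ := volume)
    simpa [Real.norm_eq_abs] using this
  refine h2.trans ?_
  have h3 : abs (∫ t in y..x, abs (p t)) ≤ abs (∫ t in a..b, abs (p t)) := by
    refine intervalIntegral.abs_integral_mono_interval ?_ ?_ (hp.abs.intervalIntegrable _ _)
    · rw [uIoc_of_le hab.le]
      intro t ht
      rcases le_total y x with h | h
      · rw [uIoc_of_le h] at ht
        exact ⟨lt_of_le_of_lt hy.1 ht.1, ht.2.trans hx.2⟩
      · rw [uIoc_of_ge h] at ht
        exact ⟨lt_of_le_of_lt hx.1 ht.1, ht.2.trans hy.2⟩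
    · exact Filter.Eventually.of_forall fun t => abs_nonneg _
  refine h3.trans (le_of_eq (abs_of_nonneg ?_))
  exact intervalIntegral.integral_nonneg hab.le fun t _ => abs_nonneg _

/-- the inequality for functions of two real variables -/
theorem core' {a b a' b' : ℝ} (hab : a < b) (hab' : a' < b') (hl : b' - a' = b - a)
    {f g px py : ℝ → ℝ → ℝ} (hg : Continuous (Function.uncurry g))
    (hpx : Continuous (Function.uncurry px)) (hpy : Continuous (Function.uncurry py))
    (hgf : ∀ x ∈ Icc a b, ∀ y ∈ Icc a' b', g x y = f x y)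
    (hx : ∀ x ∈ Icc a b, ∀ y ∈ Icc a' b', HasDerivAt (fun t => f t y) (px x y) x)
    (hy : ∀ x ∈ Icc a b, ∀ y ∈ Icc a' b', HasDerivAt (fun t => f x t) (py x y) y) :
    ∫ y in a'..b', ∫ x in a..b, g x y ^ 2 ≤
      (b - a) ^ 2 * (∫ y in a'..b', ∫ x in a..b, (px x y ^ 2 + py x y ^ 2)) +
        ((b - a) ^ 2)⁻¹ * (∫ y in a'..b', ∫ x in a..b, g x y) ^ 2 := by
  have hba : 0 < b - a := sub_pos.2 hab
  have hc1 : ∀ {h : ℝ → ℝ → ℝ}, Continuous (Function.uncurry h) → ∀ y, Continuous fun x => h x y :=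
    fun {h} hh y => hh.comp (continuous_id.prodMk continuous_const)
  have hc2 : ∀ {h : ℝ → ℝ → ℝ}, Continuous (Function.uncurry h) → ∀ x, Continuous fun y => h x y :=
    fun {h} hh x => hh.comp (continuous_const.prodMk continuous_id)
  have hint : ∀ {h : ℝ → ℝ → ℝ}, Continuous (Function.uncurry h) →
      Continuous fun y => ∫ x in a..b, h x y := by
    intro h hh
    refine intervalIntegral.continuous_parametric_intervalIntegral_of_continuous'
      (f := fun y x => h x y) ?_ a b
    exact hh.comp (continuous_snd.prodMk continuous_fst)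
  have hint' : ∀ {h : ℝ → ℝ → ℝ}, Continuous (Function.uncurry h) →
      Continuous fun x => ∫ y in a'..b', h x y := by
    intro h hh
    exact intervalIntegral.continuous_parametric_intervalIntegral_of_continuous'
      (f := fun x y => h x y) hh a' b'
  have hsq : ∀ {h : ℝ → ℝ → ℝ}, Continuous (Function.uncurry h) →
      Continuous (Function.uncurry fun x y => h x y ^ 2) := fun {h} hh => hh.pow 2
  have habs : ∀ {h : ℝ → ℝ → ℝ}, Continuous (Function.uncurry h) →
      Continuous (Function.uncurry fun x y => |h x y|) := fun {h} hh => hh.abs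
  -- first step
  have s1 : ∀ y ∈ Icc a' b', ∫ x in a..b, g x y ^ 2 ≤ (b - a) ^ 2 * (∫ x in a..b, px x y ^ 2) +
      (b - a)⁻¹ * (∫ x in a..b, g x y) ^ 2 := by
    intro y hyy
    have h1 := var hab (hc1 hg y) (D := (b - a) * ∫ x in a..b, px x y ^ 2) (by
      intro x hxx x' hxx'
      have h2 := osc hab (hc1 hpx y) (fun x hx' => hx x hx' y hyy) x hxx x' hxx'
      rw [← hgf x hxx y hyy, ← hgf x' hxx' y hyy] at h2
      have h3 := cs hab (hc1 hpx y).abs
      have h4 : (g x y - g x' y) ^ 2 ≤ (∫ t in a..b, |px t y|) ^ 2 := by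
        rw [← sq_abs (g x y - g x' y)]
        exact pow_le_pow_left₀ (abs_nonneg _) h2 2
      refine h4.trans (h3.trans (le_of_eq ?_))
      simp only [sq_abs])
    refine h1.trans (le_of_eq ?_)
    ring
  -- second step
  obtain ⟨F, hF⟩ : ∃ F : ℝ → ℝ, F = fun y => ∫ x in a..b, g x y := ⟨_, rfl⟩
  have hFc : Continuous F := by rw [hF]; exact hint hg
  obtain ⟨B, hB⟩ : ∃ B : ℝ, B = ∫ x in a..b, ∫ y in a'..b', |py x y| := ⟨_, rfl⟩
  have hB2 : B ^ 2 ≤ (b - a) ^ 2 * ∫ y in a'..b', ∫ x in a..b, py x y ^ 2 := by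
    rw [← swp hab.le hab'.le (hsq hpy), hB]
    have h1 := cs hab (hint' (habs hpy))
    refine h1.trans ?_
    have h2 : ∫ x in a..b, (∫ y in a'..b', |py x y|) ^ 2 ≤
        ∫ x in a..b, (b - a) * ∫ y in a'..b', py x y ^ 2 := by
      refine intervalIntegral.integral_mono_on hab.le
        (((hint' (habs hpy)).pow 2).intervalIntegrable _ _)
        ((continuous_const.mul (hint' (hsq hpy))).intervalIntegrable _ _) fun x _ => ?_
      have h3 := cs hab' (hc2 hpy x).abs
      rw [hl] at h3
      refine h3.trans (le_of_eq ?_)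
      simp only [sq_abs]
    rw [intervalIntegral.integral_const_mul] at h2
    calc (b - a) * ∫ x in a..b, (∫ y in a'..b', |py x y|) ^ 2
        ≤ (b - a) * ((b - a) * ∫ x in a..b, ∫ y in a'..b', py x y ^ 2) :=
          mul_le_mul_of_nonneg_left h2 hba.le
      _ = _ := by ring
  have s2 : ∀ y ∈ Icc a' b', ∀ y' ∈ Icc a' b', (F y - F y') ^ 2 ≤ B ^ 2 := by
    intro y hyy y' hyy'
    have h1 : F y - F y' = ∫ x in a..b, (g x y - g x y') := by
      rw [hF, intervalIntegral.integral_sub ((hc1 hg y).intervalIntegrable _ _)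
        ((hc1 hg y').intervalIntegrable _ _)]
    have h2 : |F y - F y'| ≤ B := by
      rw [h1, hB]
      refine (intervalIntegral.abs_integral_le_integral_abs hab.le).trans ?_
      refine intervalIntegral.integral_mono_on hab.le
        (((hc1 hg y).sub (hc1 hg y')).abs.intervalIntegrable _ _)
        ((hint' (habs hpy)).intervalIntegrable _ _) fun x hxx => ?_
      have h5 := osc hab' (hc2 hpy x) (fun y hy' => hy x hxx y hy') y hyy y' hyy'
      rw [← hgf x hxx y hyy, ← hgf x hxx y' hyy'] at h5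
      exact h5
    rw [← sq_abs (F y - F y')]
    exact pow_le_pow_left₀ (abs_nonneg _) h2 2
  have s3 := var hab' hFc s2
  rw [hl] at s3
  -- summary
  have s4 : ∫ y in a'..b', ∫ x in a..b, g x y ^ 2 ≤
      ∫ y in a'..b', ((b - a) ^ 2 * (∫ x in a..b, px x y ^ 2) + (b - a)⁻¹ * F y ^ 2) := by
    refine intervalIntegral.integral_mono_on hab'.le ((hint (hsq hg)).intervalIntegrable _ _)
      (((continuous_const.mul (hint (hsq hpx))).add
        (continuous_const.mul (hFc.pow 2))).intervalIntegrable _ _) fun y hyy => ?_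
    rw [hF]
    exact s1 y hyy
  have s4' : ∫ y in a'..b', ((b - a) ^ 2 * (∫ x in a..b, px x y ^ 2) + (b - a)⁻¹ * F y ^ 2) =
      (b - a) ^ 2 * (∫ y in a'..b', ∫ x in a..b, px x y ^ 2) +
        (b - a)⁻¹ * ∫ y in a'..b', F y ^ 2 := by
    have i1 : IntervalIntegrable (fun y => (b - a) ^ 2 * ∫ x in a..b, px x y ^ 2) volume a' b' :=
      (continuous_const.mul (hint (hsq hpx))).intervalIntegrable _ _
    have i2 : IntervalIntegrable (fun y => (b - a)⁻¹ * F y ^ 2) volume a' b' :=
      (continuous_const.mul (hFc.pow 2)).intervalIntegrable _ _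
    rw [← intervalIntegral.integral_const_mul, ← intervalIntegral.integral_const_mul,
      ← intervalIntegral.integral_add i1 i2]
  rw [s4'] at s4
  have s5 : ∫ y in a'..b', ∫ x in a..b, (px x y ^ 2 + py x y ^ 2) =
      (∫ y in a'..b', ∫ x in a..b, px x y ^ 2) + ∫ y in a'..b', ∫ x in a..b, py x y ^ 2 := by
    rw [← intervalIntegral.integral_add ((hint (hsq hpx)).intervalIntegrable _ _)
      ((hint (hsq hpy)).intervalIntegrable _ _)]
    congr 1
    ext y
    rw [intervalIntegral.integral_add ((hc1 (hsq hpx) y).intervalIntegrable _ _)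
      ((hc1 (hsq hpy) y).intervalIntegrable _ _)]
  have s6 : (∫ y in a'..b', ∫ x in a..b, g x y) = ∫ y in a'..b', F y := by rw [hF]
  rw [s5, s6]
  have s7 : (b - a)⁻¹ * ∫ y in a'..b', F y ^ 2 ≤
      (b - a)⁻¹ * ((b - a) * B ^ 2 + (b - a)⁻¹ * (∫ y in a'..b', F y) ^ 2) :=
    mul_le_mul_of_nonneg_left s3 (by positivity)
  have s8 : (b - a)⁻¹ * ((b - a) * B ^ 2 + (b - a)⁻¹ * (∫ y in a'..b', F y) ^ 2) =
      B ^ 2 + ((b - a) ^ 2)⁻¹ * (∫ y in a'..b', F y) ^ 2 := by
    field_simp
  linarith

/-- the projection of the line onto an interval -/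
noncomputable def clp (a b t : ℝ) : ℝ := max a (min b t)

theorem clp_mem {a b : ℝ} (hab : a ≤ b) (t : ℝ) : clp a b t ∈ Icc a b :=
  ⟨le_max_left _ _, max_le hab (min_le_left _ _)⟩

theorem clp_eq {a b t : ℝ} (ht : t ∈ Icc a b) : clp a b t = t := by
  unfold clp
  rw [min_eq_right ht.2, max_eq_right ht.1]

theorem clp_cont (a b : ℝ) : Continuous (clp a b) :=
  continuous_const.max (continuous_const.min continuous_id)

theorem sq_eq (c : ℂ) (r : ℝ) : Sq c r =
    Complex.measurableEquivRealProd ⁻¹' (Icc (c.re - r) (c.re + r) ×ˢ Icc (c.im - r) (c.im + r)) := by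
  ext z
  simp only [Sq, mem_ofPred_eq, mem_preimage, mem_prod, mem_Icc, abs_le,
    Complex.measurableEquivRealProd_apply]
  constructor
  · rintro ⟨⟨h1, h2⟩, h3, h4⟩
    exact ⟨⟨by linarith, by linarith⟩, by linarith, by linarith⟩
  · rintro ⟨⟨h1, h2⟩, h3, h4⟩
    exact ⟨⟨by linarith, by linarith⟩, by linarith, by linarith⟩

theorem mem_sq {c : ℂ} {r x y : ℝ} (hx : x ∈ Icc (c.re - r) (c.re + r))
    (hy : y ∈ Icc (c.im - r) (c.im + r)) : (⟨x, y⟩ : ℂ) ∈ Sq c r := by
  refine ⟨abs_le.2 ⟨?_, ?_⟩, abs_le.2 ⟨?_, ?_⟩⟩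
  · change -r ≤ x - c.re
    linarith [hx.1]
  · change x - c.re ≤ r
    linarith [hx.2]
  · change -r ≤ y - c.im
    linarith [hy.1]
  · change y - c.im ≤ r
    linarith [hy.2]

/-- the integral over a square as an iterated integral -/
theorem int_sq (c : ℂ) {r : ℝ} (hr : 0 < r) {F : ℂ → ℝ} (hF : ContinuousOn F (Sq c r)) :
    ∫ z in Sq c r, F z = ∫ y in (c.im - r)..(c.im + r), ∫ x in (c.re - r)..(c.re + r),
      F ⟨clp (c.re - r) (c.re + r) x, clp (c.im - r) (c.im + r) y⟩ := by
  have ha : c.re - r ≤ c.re + r := by linarith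
  have hb : c.im - r ≤ c.im + r := by linarith
  obtain ⟨h, hh⟩ : ∃ h : ℝ → ℝ → ℝ, h = fun x y =>
      F ⟨clp (c.re - r) (c.re + r) x, clp (c.im - r) (c.im + r) y⟩ := ⟨_, rfl⟩
  have hc : Continuous (Function.uncurry h) := by
    rw [hh]
    refine hF.comp_continuous (f := fun q : ℝ × ℝ =>
      (⟨clp (c.re - r) (c.re + r) q.1, clp (c.im - r) (c.im + r) q.2⟩ : ℂ)) ?_
      fun q => mem_sq (clp_mem ha _) (clp_mem hb _)
    exact Complex.equivRealProdCLM.symm.continuous.comp
      (((clp_cont _ _).comp continuous_fst).prodMk ((clp_cont _ _).comp continuous_snd))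
  have e1 : ∫ z in Sq c r, F z = ∫ z in Sq c r, h z.re z.im := by
    refine setIntegral_congr_fun ?_ fun z hz => ?_
    · rw [sq_eq]
      exact Complex.measurableEquivRealProd.measurable
        (measurableSet_Icc.prod measurableSet_Icc)
    · rw [sq_eq] at hz
      obtain ⟨h1, h2⟩ := hz
      rw [hh]
      change F z = F ⟨clp _ _ z.re, clp _ _ z.im⟩
      rw [clp_eq (show z.re ∈ _ from h1), clp_eq (show z.im ∈ _ from h2)]
  have e2 : ∫ z in Sq c r, h z.re z.im =
      ∫ q in Icc (c.re - r) (c.re + r) ×ˢ Icc (c.im - r) (c.im + r), Function.uncurry h q := by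
    rw [sq_eq]
    exact (Complex.volume_preserving_equiv_real_prod.setIntegral_preimage_emb
      Complex.measurableEquivRealProd.measurableEmbedding (Function.uncurry h) _)
  have e3 : ∫ q in Icc (c.re - r) (c.re + r) ×ˢ Icc (c.im - r) (c.im + r), Function.uncurry h q =
      ∫ x in Icc (c.re - r) (c.re + r), ∫ y in Icc (c.im - r) (c.im + r), h x y :=
    setIntegral_prod (Function.uncurry h)
      (hc.continuousOn.integrableOn_compact (isCompact_Icc.prod isCompact_Icc))
  have e4 := swp ha hb hc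
  rw [e1, e2, e3]
  simp only [integral_Icc_eq_integral_Ioc]
  simp only [intervalIntegral.integral_of_le ha, intervalIntegral.integral_of_le hb] at e4 ⊢
  rw [e4, hh]

theorem poin : StPoin := by
  intro c r O f hr hO hsub hf
  have ha : c.re - r < c.re + r := by linarith
  have hb : c.im - r < c.im + r := by linarith
  have hfc : ContinuousOn f (Sq c r) := hf.continuousOn.mono hsub
  have hdf : ContinuousOn (fderiv ℝ f) (Sq c r) :=
    (hf.continuousOn_fderiv_of_isOpen hO le_rfl).mono hsub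
  have hdiff : ∀ z ∈ Sq c r, HasFDerivAt f (fderiv ℝ f z) z := fun z hz =>
    ((hf.differentiableOn one_ne_zero).differentiableAt (hO.mem_nhds (hsub hz))).hasFDerivAt
  have hcomp : ∀ {F : ℂ → ℝ}, ContinuousOn F (Sq c r) → Continuous (Function.uncurry fun x y =>
      F ⟨clp (c.re - r) (c.re + r) x, clp (c.im - r) (c.im + r) y⟩) := by
    intro F hF
    refine hF.comp_continuous (f := fun q : ℝ × ℝ =>
      (⟨clp (c.re - r) (c.re + r) q.1, clp (c.im - r) (c.im + r) q.2⟩ : ℂ)) ?_
      fun q => mem_sq (clp_mem ha.le _) (clp_mem hb.le _)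
    exact Complex.equivRealProdCLM.symm.continuous.comp
      (((clp_cont _ _).comp continuous_fst).prodMk ((clp_cont _ _).comp continuous_snd))
  have hd1 : ContinuousOn (fun z => fderiv ℝ f z 1) (Sq c r) := hdf.clm_apply continuousOn_const
  have hd2 : ContinuousOn (fun z => fderiv ℝ f z Complex.I) (Sq c r) :=
    hdf.clm_apply continuousOn_const
  have hmain := core' ha hb (by ring) (f := fun x y => f ⟨x, y⟩)
    (g := fun x y => f ⟨clp (c.re - r) (c.re + r) x, clp (c.im - r) (c.im + r) y⟩)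
    (px := fun x y => fderiv ℝ f ⟨clp (c.re - r) (c.re + r) x, clp (c.im - r) (c.im + r) y⟩ 1)
    (py := fun x y => fderiv ℝ f ⟨clp (c.re - r) (c.re + r) x, clp (c.im - r) (c.im + r) y⟩
      Complex.I) (hcomp hfc) (hcomp hd1) (hcomp hd2)
    (fun x hx y hy => by
      change f ⟨clp (c.re - r) (c.re + r) x, clp (c.im - r) (c.im + r) y⟩ = f ⟨x, y⟩
      rw [clp_eq hx, clp_eq hy])
    (fun x hx y hy => by
      change HasDerivAt (fun t => f ⟨t, y⟩)
        (fderiv ℝ f ⟨clp (c.re - r) (c.re + r) x, clp (c.im - r) (c.im + r) y⟩ 1) x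
      rw [clp_eq hx, clp_eq hy]
      have h1 : HasDerivAt (fun t : ℝ => (⟨t, y⟩ : ℂ)) 1 x := by
        have h2 : HasDerivAt (fun t : ℝ => (t : ℂ) + (y : ℂ) * Complex.I) 1 x :=
          (Complex.ofRealCLM.hasDerivAt (x := x)).add_const _
        refine h2.congr_of_eventuallyEq (Filter.Eventually.of_forall fun t => ?_)
        exact (Complex.mk_eq_add_mul_I t y)
      exact (hdiff _ (mem_sq hx hy)).comp_hasDerivAt x h1)
    (fun x hx y hy => by
      change HasDerivAt (fun t => f ⟨x, t⟩)
        (fderiv ℝ f ⟨clp (c.re - r) (c.re + r) x, clp (c.im - r) (c.im + r) y⟩ Complex.I) y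
      rw [clp_eq hx, clp_eq hy]
      have h1 : HasDerivAt (fun t : ℝ => (⟨x, t⟩ : ℂ)) Complex.I y := by
        have h2 : HasDerivAt (fun t : ℝ => (x : ℂ) + (t : ℂ) * Complex.I) (1 * Complex.I) y :=
          ((Complex.ofRealCLM.hasDerivAt (x := y)).mul_const Complex.I).const_add _
        rw [one_mul] at h2
        refine h2.congr_of_eventuallyEq (Filter.Eventually.of_forall fun t => ?_)
        exact (Complex.mk_eq_add_mul_I x t)
      exact (hdiff _ (mem_sq hx hy)).comp_hasDerivAt y h1)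
  rw [← int_sq c hr (F := fun z => f z ^ 2) (hfc.pow 2), ← int_sq c hr hfc] at hmain
  rw [← int_sq c hr (F := fun z => fderiv ℝ f z 1 ^ 2 + fderiv ℝ f z Complex.I ^ 2)
    ((hd1.pow 2).add (hd2.pow 2))] at hmain
  have e : (c.re + r - (c.re - r)) ^ 2 = 4 * r ^ 2 := by ring
  rw [e] at hmain
  have hcomp' : IsCompact (Sq c r) := by
    rw [sq_eq]
    exact Complex.equivRealProdCLM.toHomeomorph.isClosedEmbedding.isCompact_preimage
      (isCompact_Icc.prod isCompact_Icc)
  have hle : ∫ z in Sq c r, (fderiv ℝ f z 1 ^ 2 + fderiv ℝ f z Complex.I ^ 2) ≤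
      ∫ z in Sq c r, ‖fderiv ℝ f z‖ ^ 2 := by
    refine setIntegral_mono_on ?_ ?_ hcomp'.measurableSet fun z _ => ?_
    · exact ((hd1.pow 2).add (hd2.pow 2)).integrableOn_compact hcomp'
    · exact (hdf.norm.pow 2).integrableOn_compact hcomp'
    · obtain ⟨A, hA⟩ : ∃ A : ℂ →L[ℝ] ℝ, A = fderiv ℝ f z := ⟨_, rfl⟩
      rw [← hA]
      obtain ⟨v, hv⟩ : ∃ v : ℂ, v = ⟨A 1, A Complex.I⟩ := ⟨_, rfl⟩
      have h1 : A v = A 1 ^ 2 + A Complex.I ^ 2 := by
        have h2 : v = (A 1) • (1 : ℂ) + (A Complex.I) • Complex.I := by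
          rw [hv, Complex.mk_eq_add_mul_I]
          simp
        rw [h2, map_add, map_smul, map_smul, smul_eq_mul, smul_eq_mul]
        ring
      have h3 : ‖v‖ ^ 2 = A 1 ^ 2 + A Complex.I ^ 2 := by
        rw [← Complex.normSq_eq_norm_sq, Complex.normSq_apply, hv]
        ring
      have h4 := A.le_opNorm v
      rw [h1, ← h3, Real.norm_eq_abs, abs_of_nonneg (sq_nonneg _)] at h4
      rw [← h3]
      rcases (norm_nonneg v).eq_or_lt with h5 | h5
      · rw [← h5]
        have := sq_nonneg ‖A‖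
        simpa using this
      · have h6 : ‖v‖ ≤ ‖A‖ := by
          have : ‖v‖ * ‖v‖ ≤ ‖A‖ * ‖v‖ := by rw [← sq]; exact h4
          exact le_of_mul_le_mul_right this h5
        exact pow_le_pow_left₀ (norm_nonneg v) h6 2
  have h4r : 0 ≤ 4 * r ^ 2 := by positivity
  exact hmain.trans (add_le_add (mul_le_mul_of_nonneg_left hle h4r) le_rfl)

end Pool.Agent.Y540.QE
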